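import Pool.Agent.H8.Hyp.Main

set_option autoImplicit false

open Set Filter Topology

namespace Pool.Agent.Results.MP_84e5ad_an.OrbitIndependent

section
variable {𝕜 X : Type} [RCLike 𝕜] [NormedAddCommGroup X] [NormedSpace 𝕜 X]

/-- strongly continuous semigroup of bounded operators on `X` (only `t ≥ 0` matters) -/
structure IsSemigroup (T : ℝ → X →L[𝕜] X) : Prop where
  zero : ∀ x, T 0 x = x
  add : ∀ s t, 0 ≤ s → 0 ≤ t → ∀ x, T (s + t) x = T s (T t x)
  cont : ∀ x, ContinuousOn (fun t => T t x) (Ici 0)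

/-- the orbit `{T_t z : t ≥ 0}` -/
def orbit (T : ℝ → X →L[𝕜] X) (z : X) : Set X := {v | ∃ t : ℝ, 0 ≤ t ∧ T t z = v}

/-- `z` is hypercyclic: its orbit is dense -/
def IsHypercyclic (T : ℝ → X →L[𝕜] X) (z : X) : Prop := Dense (orbit T z)

end

/-- embedding of the scalars in `ℂ` -/
noncomputable def io {𝕜 : Type} [RCLike 𝕜] (a : 𝕜) : ℂ := (RCLike.re a : ℂ) + (RCLike.im a : ℂ) * Complex.I

theorem io_add {𝕜 : Type} [RCLike 𝕜] (a b : 𝕜) : io (a + b) = io a + io b := by
  unfold io; rw [map_add, map_add]; push_cast; ring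

theorem io_mul {𝕜 : Type} [RCLike 𝕜] (a b : 𝕜) : io (a * b) = io a * io b := by
  unfold io; rw [RCLike.mul_re, RCLike.mul_im]; push_cast
  linear_combination (-(RCLike.im a : ℂ) * (RCLike.im b : ℂ)) * Complex.I_mul_I

theorem io_re {𝕜 : Type} [RCLike 𝕜] (a : 𝕜) : (io a).re = RCLike.re a := by simp [io]
theorem io_im {𝕜 : Type} [RCLike 𝕜] (a : 𝕜) : (io a).im = RCLike.im a := by simp [io]

theorem io_eq_zero {𝕜 : Type} [RCLike 𝕜] (a : 𝕜) (h : io a = 0) : a = 0 := by
  apply RCLike.ext
  · rw [← io_re, h]; simp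
  · rw [← io_im, h]; simp

/-- `io` as a continuous real linear map -/
noncomputable def ioL (𝕜 : Type) [RCLike 𝕜] : 𝕜 →L[ℝ] ℂ :=
  (Complex.ofRealCLM.comp RCLike.reCLM) + (Complex.I • (Complex.ofRealCLM.comp (RCLike.imCLM (K := 𝕜))))

theorem ioL_apply {𝕜 : Type} [RCLike 𝕜] (a : 𝕜) : ioL 𝕜 a = io a := by
  unfold ioL io
  show (RCLike.re a : ℂ) + Complex.I * (RCLike.im a : ℂ) = _
  ring

theorem no_eigen {X : Type} [NormedAddCommGroup X] [NormedSpace ℝ X] (T : ℝ → X →L[ℝ] X) (z : X)
    (hz : Dense {v | ∃ t : ℝ, 0 ≤ t ∧ T t z = v}) (ψ : X →L[ℝ] ℂ) (l : ℂ)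
    (h : ∀ r : ℝ, 0 ≤ r → ∀ x, ψ (T r x) = Complex.exp (l * r) * ψ x) : ψ = 0 := by
  by_contra hne
  have hψz : ψ z ≠ 0 := by
    intro h0
    apply hne
    have h1 : (fun x => ψ x) = fun _ => 0 := by
      refine Continuous.ext_on hz ψ.continuous continuous_const ?_
      rintro _ ⟨t, ht, rfl⟩
      simp only
      rw [h t ht, h0, mul_zero]
    ext x
    exact congrFun h1 x
  have hpos : 0 < ‖ψ z‖ := norm_pos_iff.2 hψz
  have hnorm : ∀ r : ℝ, 0 ≤ r → ‖ψ (T r z)‖ = Real.exp (l.re * r) * ‖ψ z‖ := by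
    intro r hr
    rw [h r hr, norm_mul, Pool.Agent.H8.Hyp.norm_exp_mul]
  rcases le_total 0 l.re with hl | hl
  · have hopen : IsOpen {x | ‖ψ x‖ < ‖ψ z‖} := isOpen_lt ψ.continuous.norm continuous_const
    obtain ⟨_, hx, ⟨t, ht, rfl⟩⟩ := hz.inter_open_nonempty _ hopen ⟨0, by simpa using hpos⟩
    simp only [mem_ofPred_eq] at hx
    rw [hnorm t ht] at hx
    have : 1 ≤ Real.exp (l.re * t) := Real.one_le_exp (mul_nonneg hl ht)
    nlinarith
  · have hopen : IsOpen {x | ‖ψ z‖ < ‖ψ x‖} := isOpen_lt continuous_const ψ.continuous.norm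
    obtain ⟨_, hx, ⟨t, ht, rfl⟩⟩ := hz.inter_open_nonempty _ hopen ⟨(2 : ℝ) • z, by
      simp only [mem_ofPred_eq]
      rw [map_smul, norm_smul]
      norm_num
      linarith⟩
    simp only [mem_ofPred_eq] at hx
    rw [hnorm t ht] at hx
    have : Real.exp (l.re * t) ≤ 1 := Real.exp_le_one_iff.2 (mul_nonpos_of_nonpos_of_nonneg hl ht)
    nlinarith

/-- **Conejero–Peris question, positive answer.**  The orbit of a hypercyclic vector of a strongly
continuous semigroup on an infinite-dimensional separable Banach space is linearly independent. -/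
theorem result (𝕜 X : Type) [RCLike 𝕜] [NormedAddCommGroup X] [NormedSpace 𝕜 X] [CompleteSpace X]
    [TopologicalSpace.SeparableSpace X] (hinf : ¬ FiniteDimensional 𝕜 X)
    (T : ℝ → X →L[𝕜] X) (hT : IsSemigroup T) (z : X) (hz : IsHypercyclic T z) :
    LinearIndependent 𝕜 (fun v : orbit T z => (v : X)) := by
  classical
  rw [linearIndependent_iff']
  intro s g hsum
  by_contra hcon
  push Not at hcon
  obtain ⟨v0, hv0, hgv0⟩ := hcon
  -- times
  choose τ hτ0 hτ using fun v : orbit T z => v.2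
  have hinj : Function.Injective τ := by
    intro v v' h
    apply Subtype.ext
    rw [← hτ v, ← hτ v', h]
  let s' := s.filter fun v => g v ≠ 0
  let S : Finset ℝ := s'.image τ
  have hSne : S.Nonempty := ⟨τ v0, Finset.mem_image_of_mem τ (Finset.mem_filter.2 ⟨hv0, hgv0⟩)⟩
  let c : ℝ → 𝕜 := fun t => if h : ∃ v, τ v = t then g h.choose else 0
  have hcτ : ∀ v, c (τ v) = g v := by
    intro v
    have h : ∃ v', τ v' = τ v := ⟨v, rfl⟩
    simp only [c]
    rw [dif_pos h]
    congr 1
    exact hinj h.choose_spec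
  have hS0 : ∀ t ∈ S, 0 ≤ t := by
    intro t ht
    obtain ⟨v, _, rfl⟩ := Finset.mem_image.1 ht
    exact hτ0 v
  have hc0 : ∀ t ∈ S, c t ≠ 0 := by
    intro t ht
    obtain ⟨v, hv, rfl⟩ := Finset.mem_image.1 ht
    rw [hcτ]
    exact (Finset.mem_filter.1 hv).2
  have hrel : ∑ t ∈ S, c t • T t z = 0 := by
    rw [Finset.sum_image (fun v _ v' _ h => hinj h)]
    rw [← hsum]
    rw [Finset.sum_filter]
    refine Finset.sum_congr rfl fun v _ => ?_
    by_cases h : g v = 0
    · simp [h]
    · simp only [ne_eq, h, not_false_eq_true, if_true]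
      rw [hcτ, hτ]
  -- shift to contain `0`
  let t0 := S.min' hSne
  have ht0 : t0 ∈ S := Finset.min'_mem _ _
  have ht00 : 0 ≤ t0 := hS0 t0 ht0
  let S1 : Finset ℝ := S.image fun t => t - t0
  have hinj1 : ∀ t t' : ℝ, t - t0 = t' - t0 → t = t' := fun t t' h => by linarith
  have hS1 : ∀ t ∈ S1, 0 ≤ t := by
    intro t ht
    obtain ⟨t', ht', rfl⟩ := Finset.mem_image.1 ht
    have := Finset.min'_le S t' ht'
    show 0 ≤ t' - t0
    linarith
  -- dense tail
  have htail : Dense {v | ∃ t : ℝ, t0 ≤ t ∧ T t z = v} := by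
    have hK : IsCompact ((fun t => T t z) '' Icc 0 t0) :=
      isCompact_Icc.image_of_continuousOn ((hT.cont z).mono fun t ht => ht.1)
    rw [dense_iff_inter_open]
    intro U hU hUne
    have hint : interior ((fun t => T t z) '' Icc 0 t0) = ∅ := by
      by_contra hne
      obtain ⟨x, hx⟩ := nonempty_iff_ne_empty.2 hne
      obtain ⟨ε, hε, hball⟩ := Metric.isOpen_iff.1 isOpen_interior x hx
      have hcb : IsCompact (Metric.closedBall x (ε / 2)) :=
        hK.of_isClosed_subset Metric.isClosed_closedBall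
          ((Metric.closedBall_subset_ball (by linarith)).trans (hball.trans interior_subset))
      exact hinf (FiniteDimensional.of_isCompact_closedBall 𝕜 (by positivity) hcb)
    have hne : (U \ ((fun t => T t z) '' Icc 0 t0)).Nonempty := by
      by_contra hcon
      rw [not_nonempty_iff_eq_empty, sdiff_eq_empty] at hcon
      have := interior_maximal hcon hU
      rw [hint] at this
      exact hUne.ne_empty (subset_empty_iff.1 this)
    obtain ⟨_, hy, ⟨t, ht, rfl⟩⟩ := hz.inter_open_nonempty _ (hU.sdiff hK.isClosed) hne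
    refine ⟨T t z, hy.1, t, ?_, rfl⟩
    by_contra hlt
    push Not at hlt
    exact hy.2 ⟨t, ⟨ht, hlt.le⟩, rfl⟩
  have hrel1 : ∀ x, ∑ t ∈ S1, c (t + t0) • T t x = 0 := by
    have hcont : Continuous fun x => ∑ t ∈ S1, c (t + t0) • T t x :=
      continuous_finsetSum _ fun t _ => (T t).continuous.const_smul _
    have h1 : (fun x => ∑ t ∈ S1, c (t + t0) • T t x) = fun _ => 0 := by
      refine Continuous.ext_on htail hcont continuous_const ?_
      rintro _ ⟨r, hr, rfl⟩
      simp only
      rw [Finset.sum_image fun t _ t' _ h => hinj1 t t' h]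
      have h2 := congrArg (T (r - t0)) hrel
      rw [map_sum, map_zero] at h2
      rw [← h2]
      refine Finset.sum_congr rfl fun t ht => ?_
      rw [map_smul]
      have e1 : t - t0 + t0 = t := by ring
      rw [e1]
      congr 1
      have h3 : 0 ≤ t - t0 := by
        have := Finset.min'_le S t ht
        show 0 ≤ t - t0
        linarith
      rw [← hT.add (t - t0) r h3 (by linarith), ← hT.add (r - t0) t (by linarith) (hS0 t ht)]
      congr 2
      ring
    intro x
    exact congrFun h1 x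
  -- real structure
  let _ : NormedSpace ℝ X := NormedSpace.restrictScalars ℝ 𝕜 X
  have : IsScalarTower ℝ 𝕜 X := RestrictScalars.isScalarTower ℝ 𝕜 X
  have hznz : z ≠ 0 := by
    rintro rfl
    have h1 : orbit T (0 : X) ⊆ {0} := by
      rintro _ ⟨t, _, rfl⟩
      simp
    have h2 : Dense ({0} : Set X) := hz.mono h1
    have h3 : ∀ x : X, x = 0 := by
      intro x
      have := h2.closure_eq
      rw [isClosed_singleton.closure_eq] at this
      have hx : x ∈ ({0} : Set X) := by rw [this]; trivial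
      exact hx
    apply hinf
    have : Subsingleton X := ⟨fun a b => by rw [h3 a, h3 b]⟩
    infer_instance
  obtain ⟨φ, _, hφ⟩ := exists_dual_vector 𝕜 z (norm_ne_zero_iff.2 hznz)
  let TR : ℝ → X →L[ℝ] X := fun t => (T t).restrictScalars ℝ
  let Φ : X →L[ℝ] ℂ := (ioL 𝕜).comp (φ.restrictScalars ℝ)
  have hΦ : ∀ x, Φ x = io (φ x) := fun x => ioL_apply (φ x)
  have hΦ0 : Φ = 0 := by
    refine Pool.Agent.H8.Hyp.core TR Φ (fun x => hT.cont x) S1 (fun t => io (c (t + t0))) hT.zero hT.add hS1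
      ?_ ?_ ?_ ?_
    · refine Finset.mem_image.2 ⟨t0, ht0, by ring⟩
    · intro t ht h
      obtain ⟨t', ht', rfl⟩ := Finset.mem_image.1 ht
      have h1 := io_eq_zero _ h
      have e1 : t' - t0 + t0 = t' := by ring
      rw [e1] at h1
      exact hc0 t' ht' h1
    · intro x
      have h1 := congrArg (fun y => io (φ y)) (hrel1 x)
      simp only [map_sum, map_zero] at h1
      have hio0 : io (0 : 𝕜) = 0 := by simp [io]
      rw [hio0] at h1
      have hios : ∀ (F : Finset ℝ) (a : ℝ → 𝕜), io (∑ t ∈ F, a t) = ∑ t ∈ F, io (a t) := by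
        intro F a
        induction F using Finset.induction_on with
        | empty => simp [hio0]
        | insert b F hb ih => rw [Finset.sum_insert hb, Finset.sum_insert hb, io_add, ih]
      rw [hios] at h1
      rw [← h1]
      refine Finset.sum_congr rfl fun t _ => ?_
      rw [hΦ, map_smul, smul_eq_mul, io_mul]
      rfl
    · intro ψ l hψ
      exact no_eigen TR z hz ψ l hψ
  have h1 : Φ z = 0 := by rw [hΦ0]; rfl
  rw [hΦ] at h1
  have h2 := io_eq_zero _ h1
  rw [h2] at hφ
  have : (‖z‖ : 𝕜) = 0 := hφ.symm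
  rw [RCLike.ofReal_eq_zero] at this
  exact hznz (norm_eq_zero.1 this)

end Pool.Agent.Results.MP_84e5ad_an.OrbitIndependent
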